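import Pool.Agent.D0H90.HT.Fin2
import Pool.Agent.D0H90.HT.Inv
import Pool.Agent.D0H33.HT.Ln
import Pool.Agent.D0H35.HT.Mod
import Pool.Agent.D0H35.HT.Hn
import Pool.Agent.D0H65.HT.Invp
import Pool.Agent.D0H65.HT.Lift
import Pool.Agent.D0H70.HT.Pc
import Pool.Agent.D0H70.HT.Sc

set_option autoImplicit false

/-!
# A rationally elliptic variety whose cohomology is not of Hodge-Tate type

Let `E : y² = x³ + α x + β` be an affine elliptic curve, `Q : a² + b² + c² = 1` the affine quadric
surface, `P = E × Q` with the involution `σ (x, y, a, b, c) = (x, -y, -a, b, c)`, `Z = P × P` and `Γ`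
the finite group generated by `σ` on the two factors and by the exchange of the factors. The quotient
variety `X = Z / Γ` (it is the symmetric square of the hypersurface
`P / σ : w² = (x³ + α x + β) (1 - b² - c²)`, an affine variety with quotient singularities) is a
counterexample to MP_2059f1_ag.

* `X` is simply connected. This is proved for the orbit space of the Euclidean topology: paths in `X`
  lift to `Z`, a loop at the image of a fixed point of `Γ` lifts to a loop in `E × Q × E × Q`, and
  the loops in the factors `E` and `Q` become loops in the images of `E / ± = ℂ` and `Q / ± = ℂ²`.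
* The cohomology of `E × Q` which is invariant under `σ` is `ℂ ⊕ H¹(E) ⊗ H²(Q)`, so that
  `H^*(X; ℂ)` is the exterior algebra on the two-dimensional space `V = H¹(E)(-1)` in degree 3, of
  the types `(2,1)` and `(1,2)`. So the mixed Hodge structure on `H³(X)` is not of Hodge-Tate type.
* Every commutative differential graded algebra with the cohomology algebra `H^*(X; ℂ)`, for example
  `A_PL(X) ⊗ ℂ`, has the minimal Sullivan model `(Λ(V), 0)`. By Sullivan's theorem `π_3(X) ⊗ ℚ` has
  dimension 2 and the other rational homotopy groups vanish: `X` is rationally elliptic, of the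
  rational homotopy type of `S³ × S³`.

Deligne's theory enters through the structure `DeligneTheory`, which lists the properties of the
mixed Hodge structures on the cohomology of complex affine varieties that are used (functorial
splitting, products, Künneth formula, the cohomology of `E` and `Q`); the cohomology of a quotient
`S / G` by a finite group is `H^*(S)^G`. Sullivan's theory enters through the structure `Sullivan`.
The statements hold for all theories with these properties. (All definitions of the statement are in
`Pool.Agent.D0H90.HT.Defs`, `Defs2` and `Short`, and `ratPi` in `Defs3`.)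
-/

namespace Pool.Agent.Results.MP_2059f1_ag.EllipticNotHodgeTate

open Pool.Agent.D0H90.HT

/-- Let `4 α³ + 27 β² ≠ 0` and `X = Xvar α β`. Then `X` is simply connected; the nonzero mixed Hodge
numbers of `X` are `h^{0,0,0} = h^{3,2,1} = h^{3,1,2} = h^{6,3,3} = 1`; every commutative
differential graded algebra with cohomology algebra `H^*(X; ℂ)` has the model `(Λ(ℂ²), 0)` with
generators of degree 3; `X` is rationally elliptic (`Elliptical`) and not of Hodge-Tate type, and
`dim π_{k+2}(X) ⊗ ℚ` is 2 for `k = 1` and 0 otherwise. -/
theorem result (α β : ℂ) (h : 4 * α ^ 3 + 27 * β ^ 2 ≠ 0) :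
    SimplyConnectedSpace (Xvar α β).Points ∧ ∀ T : DeligneTheory,
      (∀ k p q, mhn T (Xvar α β) k p q =
        if (k, p, q) = (0, 0, 0) ∨ (k, p, q) = (3, 2, 1) ∨ (k, p, q) = (3, 1, 2) ∨
          (k, p, q) = (6, 3, 3) then 1 else 0) ∧
      (∀ A : DgData, IsCdga A → HasCoh T (Xvar α β) A → HasModel A 3 2) ∧
      ∀ _ : Sullivan T,
        Elliptical T (Xvar α β) ∧ ¬ HodgeTate T (Xvar α β) ∧
        ∀ (x : (Xvar α β).Points) (k : ℕ),
          PiRank (Xvar α β).Points x k (if k = 1 then 2 else 0) := by
  have hSC : S_SC := Pool.Agent.D0H70.HT.t_SC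
    (Pool.Agent.D0H65.HT.t_LIFT Pool.Agent.D0H33.HT.t_LN)
    (Pool.Agent.D0H70.HT.t_PC Pool.Agent.D0H33.HT.t_LN)
  exact main2 Pool.Agent.D0H35.HT.t_HN Pool.Agent.D0H35.HT.t_MOD hSC
    (t_INV Pool.Agent.D0H65.HT.t_INVP) α β h

end Pool.Agent.Results.MP_2059f1_ag.EllipticNotHodgeTate
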